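import Pool.Agent.P.MP_6d14ae_al.W.Ad

/-! Degrees with the least prime power allowed and a squarefree cofactor. -/

set_option autoImplicit false

namespace Pool.Agent.P.MP_6d14ae_al.W

open MulAction J T V
open S hiding Dat Lay c_one c_div facN ext_b triK next chi chi_one

variable {G X E : Type} [Group G] [Finite G] [MulAction G X] [AddCommGroup E]
  [DistribMulAction G E] (κ : G ≃ E)
  (hκ : ∀ g h, κ (g * h) = κ g + g • κ h) (a : X → E) (ha : ∀ (g : G) x, a (g • x) = g • a x)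
  (hg : AddSubgroup.closure (Set.range a) = ⊤)

include hκ ha hg

theorem tight [FaithfulSMul G X] [IsPretransitive G X] {q r s m : ℕ} (hq : q.Prime) (hr : r.Prime)
    (hm : Squarefree m) (hqm : ¬q ∣ m) (hX : Nat.card X = q ^ (s + 1) * m) (h2 : ¬r ∣ Nat.card X)
    (h1 : r ∣ Nat.card G) (hs : ∀ i, 0 < i → i ≤ s + 1 → r ∣ q ^ i - 1 → i = s) (s1 : s ≠ 1)
    {x z : X} {g : G} {k : ℕ} (c1 : κ g = a x) (c2 : g ^ k • z = z)
    (c3 : k.Coprime (Nat.card X)) : False := by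
  have := solv κ hκ
  have sp : ∀ q : ℕ, q.Prime → ∃ j N, Nat.card G = N * q ^ j ∧ N.Coprime q := fun q hq => by
    obtain ⟨j, N, k1, k2⟩ :=
      Nat.exists_eq_pow_mul_and_not_dvd (Nat.card_pos (α := G)).ne' q hq.one_lt.ne'
    exact ⟨j, N, k2.trans (mul_comm _ _), (hq.coprime_iff_not_dvd.2 k1).symm⟩
  have m2 : ∀ l, l.Prime → l ≠ q → ¬l ^ 2 ∣ Nat.card X := fun l h k e => h.prime.not_isUnit
    (hm l (sq l ▸ (Nat.coprime_pow_primes 2 (s + 1) h hq k).dvd_of_dvd_mul_left (hX ▸ e)))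
  have nk : ∀ l, l.Prime → l ∣ Nat.card X → ¬l ∣ k := fun l h e e' =>
    h.one_lt.ne' (Nat.eq_one_of_dvd_coprimes c3 e' e)
  have z1 := zone (G := G) (X := X) hm fun l hl lm M hM y h => by
    obtain ⟨j, L, hL, cL⟩ := sp l hl
    let _ := S.tact (G := G) (E := E) (l ^ j)
    obtain ⟨e, e1, e2, -, -, e4⟩ := mkd2 κ hκ a ha hg hL (cL.pow_right j)
    exact nk l hl (hX ▸ lm.mul_left _) (T0 e hl e2 (e1 ▸ cL) (fun v => Subtype.ext v.2)
      (m2 l hl fun e => hqm (e ▸ lm)) hM h (e4 g x c1) c2)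
  have od := fun j K => oddl (G := G) (X := X) (K := K) (a := j) hq hqm fun l hl lm K N hK hN => by
    obtain ⟨j, L, hL, cL⟩ := sp l hl
    let _ := S.tact (G := G) (E := E) (l ^ j)
    obtain ⟨e, e1, e2, -⟩ := mkd κ hκ a ha hg hL (cL.pow_right j)
    exact LL e hl e2 (e1 ▸ cL) (fun v => Subtype.ext v.2) (m2 l hl fun e => hqm (e ▸ lm)) hK hN
  obtain ⟨b, M, hM, cM⟩ := sp r hr
  let _ := S.tact (G := G) (E := E) (r ^ b)
  obtain ⟨d, d1, d2, d3, d4⟩ := mkd κ hκ a ha hg hM (cM.pow_right b)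
  obtain ⟨K, N, B, p, hN, I, hp, pn, k1, k2, k3, k4, k5, k6, k7⟩ := find (d := d)
    (by rw [d2]; exact (hr.coprime_iff_not_dvd.2 h2).pow_left b) ⊥ ⊥ (lay_bot d) fun h => by
      have := (card_sub κ hκ (cM.pow_right b).symm (hM.trans (mul_comm _ _))).1
      rw [← d3, le_bot_iff.1 h, Subgroup.card_bot] at this
      rw [hM, ← this, mul_one] at h1
      exact hr.one_lt.ne' (Nat.eq_one_of_dvd_coprimes cM h1 dvd_rfl)
  have hrp : r ≠ p := fun e => h2 (e ▸ pn)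
  obtain ⟨j, L, hL, cL⟩ := sp p hp
  let _ := S.tact (G := G) (E := E) (p ^ j)
  obtain ⟨e, e1, e2, e3, e4, e5⟩ := mkd2 κ hκ a ha hg hL (cL.pow_right j)
  have hZ : ∀ u ∈ e.W, d.c u = 0 := fun u hu => d4 u (by
    obtain ⟨t, ht⟩ := (Nat.coprime_pow_primes j b hp hr hrp.symm).dvd_of_dvd_mul_right
      (hM ▸ hL ▸ dvd_mul_left _ _)
    rw [e3] at hu
    rw [mem_tor, ht, mul_nsmul, show p ^ j • κ u = 0 from hu, smul_zero])
  have hZ' : ∀ u ∈ d.W, e.c u = 0 := fun u hu => e4 u (by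
    obtain ⟨t, ht⟩ := (Nat.coprime_pow_primes b j hr hp hrp).dvd_of_dvd_mul_right
      (hL ▸ hM ▸ dvd_mul_left _ _)
    rw [d3] at hu
    rw [mem_tor, ht, mul_nsmul, show r ^ b • κ u = 0 from hu, smul_zero])
  have hC : ∀ v : tor E (p ^ j), p ^ j • v = 0 := fun v => Subtype.ext v.2
  have hI : ¬p ∣ e.W.index := by
    have k := e.W.index_mul_card
    rw [e3, (card_sub κ hκ (cL.pow_right j).symm (hL.trans (mul_comm _ _))).1, hL,
      Nat.mul_left_inj (pow_ne_zero j hp.ne_zero), ← e3] at k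
    exact k ▸ hp.coprime_iff_not_dvd.1 cL.symm
  have hG : ∀ g : G, (g ^ e.N1) ^ p ^ j = 1 := fun g => by
    rw [← pow_mul, e1, ← hL, pow_card_eq_one']
  rw [← e1] at cL
  obtain rfl : p = q := by
    by_contra k
    refine core d e hr hp hrp d2 e2 cL hC
      (fun i h0 h => (m2 p hp k ((pow_dvd_pow p (by omega)).trans h)).elim)
      hZ (fun g => ?_) hN I k1 k2 k3 k4 k5 k6 k7
    rw [d3, e3]
    exact ⟨fun ⟨w, hw, u, hu, h⟩ => h ▸ swap κ hκ hw hu, fun ⟨u, hu, w, hw, h⟩ => h ▸ swap κ hκ hu hw⟩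
  have hK := I.nor
  have p1 : ¬p ≡ 1 [MOD r] := fun h => s1 (hs 1 one_pos (by omega)
    (by rw [pow_one]; exact (Nat.modEq_iff_dvd' hp.one_le).1 h.symm)).symm
  have cp : (r ^ b).Coprime p := ((Nat.coprime_primes hr hp).2 hrp).pow_left b
  have wo : ∀ w ∈ d.W, w ^ r ^ b = 1 := fun w hw => d2 ▸ d.hW w hw
  have ex : ∀ w ∈ d.W, w ∉ K → ∃ y : X, ¬tv hK N y w := fun w hw h => not_forall.1
    (mt (inK hK hN I.clo k3 cp (k6 hw) (wo w hw)) h)
  obtain ⟨w, hw, w0⟩ := SetLike.not_le_iff_exists.1 k7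
  obtain ⟨y, hy⟩ := ex w hw w0
  have ex1 : ∃ n ∈ N, n⁻¹ * w * n * w⁻¹ ∉ K := by
    by_contra! h
    exact hy fun n hn => le_DD K hK y (h n hn)
  obtain ⟨F, hF, mF⟩ := fxr hr (wo w hw) K N k2 (fun n hn => hN.conj_mem n hn w)
    fun n _ h => hK.conj_mem n h w
  have KF : K ≤ F := fun n h => (hF n).2 ⟨k1.le h, by
    simpa [mul_assoc] using mul_mem (inv_mem h) (hK.conj_mem n h w)⟩
  obtain ⟨i, hi⟩ := lay hK hN I.clo k1 hp k2 k3 y
  have hV := fun t => (uni2 hK hN k1.le y t).trans hi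
  have fc := fun t => hX.symm.trans (fac hK hN k1.le t)
  simp only [hV, uni hN y] at fc
  have UP := fun h : ∀ t, ¬p ∣ (stabilizer G t).relIndex (DD K hK t) => up (d := e) hK I.clo
    (fun t => by rw [e2]; exact (hp.coprime_iff_not_dvd.2 (h t)).pow_left j) ⊥ ⊥ (lay_bot e) bot_le
  by_cases hi1 : s ≤ i
  · obtain rfl : s = i := le_antisymm hi1 (by
      by_contra h
      obtain ⟨t, rfl⟩ := Nat.exists_eq_add_of_lt (not_le.1 h)
      exact hqm ⟨(stabilizer G y).relIndex (DD K hK y) * p ^ t * (DD N hN y).index,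
        Nat.eq_of_mul_eq_mul_left (pow_pos hp.pos (s + 1)) (by rw [fc y]; ring)⟩)
    have f1 : ∀ t, m = (stabilizer G t).relIndex (DD K hK t) * (DD N hN y).index := fun t =>
      Nat.eq_of_mul_eq_mul_left (pow_pos hp.pos (s + 1)) (by rw [fc t]; ring)
    have f2 := z1 N hN y (f1 y ▸ dvd_mul_left _ _)
    obtain ⟨B', J⟩ := UP fun t k => hqm (f1 t ▸ k.mul_right _)
    have iN := (ridx hK I.clo k1.le k2 (tra hN f2 y)).trans hi
    have FN : F ≤ N := fun n h => ((hF n).1 h).1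
    obtain ⟨c, hc⟩ := pw K F hp (fun a h b h' => k2 a (FN h) b (FN h')) fun a h => k3 a (FN h)
    have l : c < s + 1 := by
      by_contra h
      obtain ⟨n, hn, n0⟩ := ex1
      exact n0 ((hF n).1 (eqN (inf_le_left.trans KF) FN (by
        rw [iN, hc]; exact Nat.pow_le_pow_right hp.pos (not_lt.1 h)) hn)).2
    have := hs _ (by omega) (by omega) (ar hp hr hrp l.le (iN ▸ hc ▸ mF))
    obtain rfl : c = 1 := by omega
    exact theta e hp e2 cL hC hN J k1 k2 k3 k4 (tra hN f2) (hZ' w hw) hr (wo w hw) p1 ex1 hF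
      (hc.trans (pow_one p)) y
  have IR := fun (y : X) (ρ : G) (h : ρ ∈ KK X N hN) (h' : ρ ^ r ^ b = 1) (h'' : ¬tv hK N y ρ) =>
    irr (n := p ^ s) (DD K hK y) N hp hr hrp (fun i h0 h k => by
      have := (Nat.pow_dvd_pow_iff_le_right hp.one_lt).1 h
      have := hs i h0 (by omega) k
      omega) (hV y ▸ pow_dvd_pow p (not_le.1 hi1)) (fun a h b h' => le_DD K hK y (k2 a h b h'))
      (fun a ha => le_DD K hK y (k3 a ha)) ρ h' (norL hK hN k2 y h) h''
  obtain rfl : s = i + 1 := by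
    have := (IR y w (k6 hw) (wo w hw) hy).1
    rw [hi, ← pow_succ', Nat.pow_dvd_pow_iff_le_right hp.one_lt] at this
    omega
  have f1 : ∀ t, p * m = (stabilizer G t).relIndex (DD K hK t) * (DD N hN y).index := fun t =>
    Nat.eq_of_mul_eq_mul_left (pow_pos hp.pos (i + 1)) (by rw [← mul_assoc, ← pow_succ, fc t]; ring)
  have ST := st5 e hp e2 d hZ (fun w hw u hu => by
      rw [d3] at hw ⊢
      rw [e3] at hu ⊢
      exact swap κ hκ hw hu) hN I k1.le k2 k5 k6 k7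
    (fun t => hV t ▸ dvd_pow_self p i.succ_ne_zero) fun w hw h =>
      let ⟨y, hy⟩ := ex w hw h; ⟨y, (IR y w (k6 hw) (wo w hw) hy).2⟩
  have EN := fun B' J => tone e hp e2 cL hC hqm z1 hK hN I.clo y (f1 y ▸ dvd_mul_left _ _)
    (mid2 e hp e2 cL hC (B' := B') hK hN J k1 k3 k4 ⟨w, k6 hw, ex1⟩ fun t F l1 l2 h => by
      obtain ⟨g, rfl⟩ := exists_smul_eq G y t
      have a1 := (KK_normal (X := X) N hN).conj_mem w (k6 hw) g
      exact (IR _ _ a1 (by rw [conj_pow, wo w hw]; simp) fun h => hy (by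
        simpa [mul_assoc] using tv_conj hK hN g⁻¹ h)).2 F l1 l2 (h _ a1))
    ST hI hG (e5 g x c1) c2 (nk p hp pn)
  by_cases h : p ∣ (DD N hN y).index
  · obtain ⟨B', J⟩ := UP fun t k => hqm ((Nat.mul_dvd_mul_iff_left hp.pos).1
      (by rw [f1 t]; exact mul_dvd_mul k h))
    exact EN B' J
  have f2 := z1 N hN y ((hp.coprime_iff_not_dvd.2 h).symm.dvd_of_dvd_mul_left
    (f1 y ▸ dvd_mul_left _ _))
  have tr := tra hN f2
  have rg : ∀ t : X, ∀ n ∈ N, n ∈ DD K hK t → n ∈ K := fun t n hn =>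
    reg hK I.clo (tr t) fun m hm => by simpa using k2 _ (inv_mem hm) n hn
  rcases up2 hK I.clo e hp e2 ⊥ ⊥ (lay_bot e) bot_le with ⟨B', J⟩ |
    ⟨K0, N0, B0, J, hN0, l0, l1, g1, g2, nt⟩
  · exact EN B' J
  have hL0 := KK_normal (X := X) N0 hN0
  have LK : KK X N0 hN0 ≤ K := fun g hg => I.clo g fun y =>
    let ⟨n, hn, e⟩ := mem_KK.1 hg y; ⟨n, l1 hn, e⟩
  obtain ⟨i0, hi0⟩ := lay J.nor hN0 J.clo l0 hp g1 g2 y
  have a1 := fac2 hK hN k1.le y
  rw [hi, f2, mul_one] at a1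
  have a2 := fac2 hN0 hK l1 y
  have a3 := fac J.nor hN0 l0.le y
  rw [hX, hi0, ← a2, ← a1] at a3
  have a4 : p ^ i0 * (DD N0 hN0 y).relIndex K ∣ m :=
    ⟨(stabilizer G y).relIndex (DD K0 J.nor y), Nat.eq_of_mul_eq_mul_left
      (pow_pos hp.pos (i + 1 + 1)) (by rw [a3]; ring)⟩
  rcases i0 with _ | i0
  swap
  · exact hqm (((dvd_pow_self p i0.succ_ne_zero).mul_right _).trans a4)
  rw [pow_zero, one_mul] at a4
  obtain ⟨y1, a5⟩ := ST ⊤ y le_top (fun t g _ n hn h => le_DD K hK t (hK.conj_mem n (rg t n hn h) g))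
    fun g _ => tr y _
  obtain ⟨t, ht⟩ := fixc (D := stabilizer G y) (Δ := ⊤) hr (zp (wo w hw)) le_top
    (by rwa [Subgroup.relIndex_top_right, index_stabilizer_of_transitive])
  refine three2 e hp e2 cL hC hN k1 k3 k4 (fun u hu => ?_) tr (w := w) (fun u hu h => rg y u hu ?_)
    hK J hN0 g1 g2 (fun z => (uni2 J.nor hN0 l0.le y z).trans (hi0.trans (pow_one p))) nt
    (fun u hu h => od j K hK I.clo (e2 ▸ e.hW u hu) h y _ hL0
      (fun g hg => mem_KK.2 fun t => (DD_KK hN0 t).le (hg t)) LK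
      (by rw [DD_KK, ← a2]; exact mul_dvd_mul_right a4 _))
    (l0.le.trans l1) (hZ' w hw) hr (wo w hw) p1 (y := t • y) (by
      rw [← mul_smul, ← inv_smul_eq_iff, ← mul_smul, ← mul_assoc]
      exact ht w (Subgroup.mem_zpowers w))
  · obtain ⟨n, hn, e1⟩ := tr y (u • y)
    simpa using mul_mem hn (k1.le (reg hK I.clo (tr y) (fun m hm => (cz K _ _).2 (by
      rw [QuotientGroup.mk_mul]
      exact ((cz K _ _).1 (by simpa using k2 _ (inv_mem hm) _ (inv_mem hn))).mul_right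
        ((cz K _ _).1 (rg y1 _ (cN hN u m hm) (a5 u hu trivial m hm))))) (inv_mul_DD K hK e1)))
  · exact ((IR y w (k6 hw) (wo w hw) hy).2 F (fun n h => KF (rg y n h.2 h.1))
      (fun n h => ((hF n).1 h).1) fun n h => (hF _).2 ⟨hN.conj_mem n ((hF n).1 h).1 w, by
        simpa [mul_assoc] using hK.conj_mem _ ((hF n).1 h).2 w⟩).resolve_right
      (fun l => hy fun n hn => le_DD K hK y ((hF n).1 (l hn)).2) ((hF u).2 ⟨hu, h⟩)

/-- the same with the multiplicative order of the prime -/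
theorem tight' [FaithfulSMul G X] [IsPretransitive G X] {p r m : ℕ} (hp : p.Prime) (hr : r.Prime)
    (hm : Squarefree m) (hpm : ¬p ∣ m) (hX : Nat.card X = p ^ (orderOf (p : ZMod r) + 1) * m)
    (h2 : ¬r ∣ Nat.card X) (h1 : r ∣ Nat.card G) (s1 : orderOf (p : ZMod r) ≠ 1)
    {x z : X} {g : G} {k : ℕ} (c1 : κ g = a x) (c2 : g ^ k • z = z)
    (c3 : k.Coprime (Nat.card X)) : False := by
  refine tight κ hκ a ha hg hp hr hm hpm hX h2 h1 (fun i h0 h k => ?_) s1 c1 c2 c3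
  have h3 : orderOf (p : ZMod r) ∣ i := orderOf_dvd_of_pow_eq_one (by
    have := (ZMod.natCast_eq_zero_iff _ r).2 k
    rwa [Nat.cast_sub (Nat.one_le_pow i p hp.pos), sub_eq_zero, Nat.cast_pow, Nat.cast_one] at this)
  obtain ⟨t, rfl⟩ := h3
  generalize orderOf (p : ZMod r) = s at *
  rcases t with _ | _ | t
  · simp at h0
  · simp
  · rcases s with _ | _ | s
    · simp at h0
    · exact (s1 rfl).elim
    · nlinarith

end Pool.Agent.P.MP_6d14ae_al.W
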