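import Pool.Agent.P.MP_6d14ae_al.V.Sml

/-! Layers of primes that divide the degree once, and the middle step with its side results. -/

set_option autoImplicit false

namespace Pool.Agent.P.MP_6d14ae_al.W

open MulAction T V
open S hiding Dat Lay c_one c_div facN ext_b triK next chi chi_one

variable {G X C : Type} [Group G] [MulAction G X] {K N : Subgroup G}

theorem DD_KK (hN : N.Normal) (t : X) : DD (KK X N hN) (KK_normal N hN) t = DD N hN t :=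
  le_antisymm (fun _ ⟨_, hk, e⟩ => let ⟨n, hn, e'⟩ := mem_KK.1 hk t; ⟨n, hn, e.trans e'⟩)
    (DD_mono hN _ (fun n hn => mem_KK.2 fun _ => ⟨n, hn, rfl⟩) t)

theorem le_KK (hN : N.Normal) : N ≤ KK X N hN := fun n hn => mem_KK.2 fun _ => ⟨n, hn, rfl⟩

theorem zp {u : G} {p a : ℕ} (h : u ^ p ^ a = 1) : IsPGroup p (Subgroup.zpowers u) := by
  rintro ⟨_, k, rfl⟩
  refine ⟨a, Subtype.ext ?_⟩
  show (u ^ k) ^ p ^ a = 1
  rw [← zpow_natCast, ← zpow_mul, mul_comm, zpow_mul, zpow_natCast, h, one_zpow]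

theorem fixc {U Δ D : Subgroup G} {p : ℕ} (hp : p.Prime) (hU : IsPGroup p U) (l : U ≤ Δ)
    (h : ¬p ∣ D.relIndex Δ) : ∃ g, ∀ u ∈ U, g⁻¹ * u * g ∈ D := by
  have := Fact.mk hp
  obtain ⟨⟨g⟩, hg⟩ := (hU.comap_subtype (K := Δ)).nonempty_fixed_point_of_prime_not_dvd_card
    (Δ ⧸ D.subgroupOf Δ) h
  refine ⟨g, fun u hu => ?_⟩
  have h4 : ((⟨u, l hu⟩ : Δ) * g)⁻¹ * g ∈ D.subgroupOf Δ :=
    QuotientGroup.eq.1 (hg ⟨⟨u, l hu⟩, hu⟩)
  simpa [mul_assoc] using D.inv_mem h4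

variable [Finite G]

theorem fxr {w : G} {r b : ℕ} (hr : r.Prime) (hw : w ^ r ^ b = 1) (D F : Subgroup G)
    (hF : ∀ a ∈ F, ∀ b ∈ F, a * b * a⁻¹ * b⁻¹ ∈ D) (h1 : ∀ n ∈ F, w * n * w⁻¹ ∈ F)
    (h2 : ∀ n ∈ F, n ∈ D → w * n * w⁻¹ ∈ D) :
    ∃ F' : Subgroup G, (∀ n, n ∈ F' ↔ n ∈ F ∧ n⁻¹ * w * n * w⁻¹ ∈ D) ∧
      D.relIndex F ≡ D.relIndex F' [MOD r] := by
  have nm : ∀ F : Subgroup G, (∀ m ∈ F, w * m * w⁻¹ ∈ F) → ∀ u ∈ Subgroup.zpowers w, ∀ m ∈ F,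
      u * m * u⁻¹ ∈ F := fun F h u hu m hm => (Subgroup.mem_normalizer_iff.1
    ((Subgroup.zpowers_le.2 (Subgroup.mem_normalizer_fintype (S := (F : Set G)) h)) hu) m).1 hm
  obtain ⟨F', e1, e2⟩ := cnt D F _ hr (zp hw) hF (nm F h1) fun u hu m hm e =>
    (nm (D ⊓ F) (fun m hm => ⟨h2 m hm.2 hm.1, h1 m hm.2⟩) u hu m ⟨e, hm⟩).1
  refine ⟨F', fun n => (e1 n).trans (and_congr_right fun hn =>
    ⟨fun h => h w (Subgroup.mem_zpowers w), fun h u hu => ?_⟩), e2⟩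
  obtain ⟨k, rfl⟩ := mem_powers_iff_mem_zpowers.2 hu
  show n⁻¹ * w ^ k * n * (w ^ k)⁻¹ ∈ D
  induction k with
  | zero => simp
  | succ k ih =>
    have := h2 _ (by
      simpa [mul_assoc] using mul_mem (inv_mem hn) (nm F h1 _ (pow_mem (Subgroup.mem_zpowers w) k) n hn))
      (ih (pow_mem (Subgroup.mem_zpowers w) k))
    simpa [pow_succ', mul_assoc] using mul_mem h this

variable [IsPretransitive G X]

section
variable [Group.IsSolvable G]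

theorem zone {m : ℕ} (hm : Squarefree m)
    (hT : ∀ q, q.Prime → q ∣ m → ∀ (M : Subgroup G) (hM : M.Normal) (y : X), (DD M hM y).index ≠ q)
    (M : Subgroup G) : ∀ (hM : M.Normal) (y : X), (DD M hM y).index ∣ m → (DD M hM y).index = 1 := by
  induction M using WellFoundedGT.induction with
  | _ M ih =>
  intro hM y h
  rcases (le_KK (X := X) hM).eq_or_lt with e | l
  swap
  · rw [← DD_KK hM] at h ⊢
    exact ih _ l _ y h
  by_cases h0 : M = ⊤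
  · exact Subgroup.index_eq_one.2 (eq_top_iff.2 (h0.ge.trans (le_DD M hM y)))
  obtain ⟨q, hq, N, hN, h1, -, h3, h4, -⟩ := elem2 M ⊤ (lt_top_iff_ne_top.2 h0)
  obtain ⟨i, hi⟩ := lay hM hN (fun g hg => e.ge (mem_KK.2 hg)) h1 hq h3 h4 y
  have h5 := fac2 hM hN h1.le y
  rw [ih N h1 hN y ((Dvd.intro_left _ h5).trans h), mul_one, hi] at h5
  rw [← h5] at h
  rcases i with _ | i
  · exact (hT q hq (by simpa using h) M hM y (by simpa using h5.symm)).elim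
  · exact (hq.prime.not_isUnit (hm q (Dvd.dvd.trans ⟨q ^ i, by ring⟩ h))).elim

theorem oddl {m p a : ℕ} (hp : p.Prime) (hpm : ¬p ∣ m)
    (hL : ∀ q, q.Prime → q ∣ m → ∀ (K N : Subgroup G) (_ : K.Normal) (hN : N.Normal),
      (∀ g : G, (∀ y : X, ∃ k ∈ K, g • y = k • y) → g ∈ K) → K < N →
      (∀ a ∈ N, ∀ b ∈ N, a * b * a⁻¹ * b⁻¹ ∈ K) → (∀ a ∈ N, a ^ q ∈ K) →
      (∀ M : Subgroup G, M.Normal → K < M → M ≤ N → N ≤ M) →
      ∀ ρ ∈ KK X N hN, ∀ n ∈ N, n⁻¹ * ρ * n * ρ⁻¹ ∈ K) (hK : K.Normal)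
    (clo : ∀ g : G, (∀ y : X, ∃ k ∈ K, g • y = k • y) → g ∈ K) {u : G} (hu : u ^ p ^ a = 1)
    (uK : u ∈ K) (y : X) (M : Subgroup G) : ∀ (hM : M.Normal),
      (∀ g : G, (∀ y : X, ∃ k ∈ M, g • y = k • y) → g ∈ M) → M ≤ K →
      (DD M hM y).index ∣ m * (DD K hK y).index → u ∈ M := by
  induction M using WellFoundedGT.induction with
  | _ M ih =>
  intro hM cM l h
  rcases l.eq_or_lt with rfl | l
  · exact uK
  obtain ⟨q, hq, N, hN, h1, h2, h3, h4, h5⟩ := elem2 M K l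
  obtain ⟨i, hi⟩ := lay hM hN cM h1 hq h3 h4 y
  have h6 := fac2 hM hN h1.le y
  have h7 : q ∣ m := by
    rw [← h6, ← fac2 hN hK h2 y, ← mul_assoc, Nat.mul_dvd_mul_iff_right
      (Nat.pos_of_ne_zero Subgroup.index_ne_zero_of_finite), hi] at h
    exact ((dvd_pow_self q i.succ_ne_zero).mul_right _).trans h
  have h8 := ih _ (h1.trans_le (le_KK hN)) (KK_normal N hN)
    (fun g hg => mem_KK.2 fun t => (DD_KK hN t).le (hg t))
    (fun g hg => clo g fun y => let ⟨n, hn, e⟩ := mem_KK.1 hg y; ⟨n, h2 hn, e⟩)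
    (by rw [DD_KK]; exact (Dvd.intro_left _ h6).trans h)
  exact cop M (((Nat.coprime_primes hq hp).2 fun e => hpm (e ▸ h7)).pow_right a)
    (trl hM hN cM h3 h4 h8 (hL q hq h7 M N hM hN cM h1 h3 h4 h5 u h8)).1 (hu ▸ M.one_mem)

end

variable [AddCommGroup C] [DistribMulAction G C]
  (e : Dat G X C) {p a : ℕ} (hp : p.Prime) (he : e.N2 = p ^ a) (hpN : e.N1.Coprime p)
  (hC : ∀ v : C, p ^ a • v = 0)

include hp he hpN hC

theorem mid2 {B' : AddSubgroup C} (hK : K.Normal) (hN : N.Normal) (J : Lay e K B') (hl : K < N)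
    (h2 : ∀ a ∈ N, a ^ p ∈ K) (min : ∀ M : Subgroup G, M.Normal → K < M → M ≤ N → N ≤ M)
    (ex2 : ∃ ρ ∈ KK X N hN, ∃ n ∈ N, n⁻¹ * ρ * n * ρ⁻¹ ∉ K)
    (IR : ∀ (y : X) (F : Subgroup G), DD K hK y ⊓ N ≤ F → F ≤ N →
      (∀ l ∈ KK X N hN, ∀ m ∈ F, l * m * l⁻¹ ∈ F) → F ≤ DD K hK y ∨ N ≤ F) :
    ∃ (Y : AddSubgroup C) (Δ : Subgroup G), (∀ (g : G) v, v ∈ Y → g • v ∈ Y) ∧ Y ≠ ⊤ ∧
      (∀ g, g ∈ Δ ↔ ∀ v, g • v - v ∈ Y) ∧ KK X N hN ≤ Δ ∧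
      (∀ y : X, ∀ g ∈ Δ, ∀ n ∈ N, n ∈ DD K hK y → g * n * g⁻¹ ∈ DD K hK y) ∧
      ∀ u ∈ Δ, (∀ n ∈ N, n⁻¹ * u * n * u⁻¹ ∈ K) → e.c u ∈ Y := by
  have CM := @com G X C _ _ _ _ K N hN e B'
  obtain ⟨D, hD, BD, nD, v, v0, hv, mx⟩ := mxl (N := N) e hp he hC J.sta
    fun h => hl.not_ge fun n hn => by
      obtain ⟨u, hu, -, e2, e3⟩ := fp e hpN h2 hn hN
      simpa using mul_mem ((J.iff u hu).1 (e2 ▸ CM J hl min ex2 J.sta le_rfl h n hn)) e3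
  let Y := fv D (N : Set G)
  have hY : ∀ (g : G) v, v ∈ Y → g • v ∈ Y := fv_sta hD fun t ht g => hN.conj_mem' t ht g
  have DY : D ≤ Y := le_fv hD _
  have NY := mx Y hY DY (mem_fv.2 fun n hn => by
    obtain ⟨u, hu, -, -, e3⟩ := fp e hpN h2 hn hN
    simpa [smul_sub, mul_smul] using D.add_mem (hD u _ (BD (J.tri _ e3 v))) (hv u hu))
  let Δ : Subgroup G := ⨅ v, fx Y hY v
  have hΔ : ∀ g, g ∈ Δ ↔ ∀ v, g • v - v ∈ Y := fun g => Subgroup.mem_iInf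
  have nΔ : Δ.Normal := ⟨fun g hg k => (hΔ _).2 fun v => by
    simpa [smul_sub, mul_smul] using hY k _ ((hΔ g).1 hg (k⁻¹ • v))⟩
  have LΔ : KK X N hN ≤ Δ := fun l h => (hΔ l).2 (Ltri e hN NY l h)
  have nor : ∀ y : X, ∀ g ∈ Δ, ∀ n ∈ N, n ∈ DD K hK y → g * n * g⁻¹ ∈ DD K hK y := fun y => by
    have inv : ∀ g ∈ Δ, ∀ m ∈ N ⊓ fx D hD (e.b y), g * m * g⁻¹ ∈ N ⊓ fx D hD (e.b y) :=
      fun g hg m hm => ⟨hN.conj_mem m hm.1 g, by
        have := hD g _ (D.add_mem hm.2 (mem_fv.1 ((hΔ _).1 (inv_mem hg) (e.b y)) m hm.1))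
        show (g * m * g⁻¹) • e.b y - e.b y ∈ D
        convert this using 1
        simp only [smul_sub, smul_add, mul_smul, smul_inv_smul]
        abel⟩
    have l : DD K hK y ⊓ N ≤ N ⊓ fx D hD (e.b y) := fun m ⟨⟨k, hk, e2⟩, hm⟩ => ⟨hm, by
      show m • e.b y - e.b y ∈ D
      rw [← e.hb, e2, e.hb]
      exact BD (J.tri k hk _)⟩
    have l2 := (IR y _ l inf_le_left fun ρ a1 => inv ρ (LΔ a1)).resolve_right
      fun h => nD (all_b (d := e) hD hN y fun m hm => (h hm).2)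
    exact fun g hg n hn h => l2 (inv g hg n (l ⟨h, hn⟩))
  let T : Set G := {u | u ∈ Δ ∧ ∀ n ∈ N, n⁻¹ * u * n * u⁻¹ ∈ K}
  have g3 := CM (J := fv D T) J hl min ex2 (fv_sta hD fun t ht g =>
    ⟨nΔ.conj_mem' t ht.1 g, fun n hn => by
      simpa [mul_assoc] using hK.conj_mem' _ (ht.2 _ (hN.conj_mem n hn g)) g⟩)
    (BD.trans (le_fv hD _)) fun n hn v => mem_fv.2 fun u hu => by
      have := D.add_mem (hD n _ (BD (J.tri _ (hu.2 n hn) (u • v))))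
        (mem_fv.1 ((hΔ u).1 hu.1 v) n hn)
      convert this using 1
      simp only [smul_sub, mul_smul, inv_smul_smul, smul_inv_smul]
      abel
  refine ⟨Y, Δ, hY, fun h => nD fun n hn v => mem_fv.1 (show v ∈ Y from h ▸ trivial) n hn, hΔ, LΔ,
    nor, fun u h g2 => mem_fv.2 fun n hn => ?_⟩
  have k1 := g2 n hn
  have k2 : e.c (u * n) = e.c (n * (n⁻¹ * u * n * u⁻¹ * u)) := by congr 1; group
  rw [e.hc u n, e.hc n, e.hc _ u] at k2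
  have := D.sub_mem (D.sub_mem (mem_fv.1 (g3 n hn) u ⟨h, g2⟩) (hD n _ (BD (cK J k1))))
    (hD n _ (BD (J.tri _ k1 (e.c u))))
  convert this using 1
  rw [smul_sub, eq_sub_of_add_eq' k2, smul_add]
  abel

theorem two2 [Group.IsSolvable G] {m : ℕ} (hpm : ¬p ∣ m)
    (z1 : ∀ (M : Subgroup G) (hM : M.Normal) (y : X), (DD M hM y).index ∣ m → (DD M hM y).index = 1)
    (hN : N.Normal) (y : X) (hz : (DD N hN y).index ∣ p * m)
    (H : ∃ (Y : AddSubgroup C) (Δ : Subgroup G), (∀ (g : G) v, v ∈ Y → g • v ∈ Y) ∧ Y ≠ ⊤ ∧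
      (∀ g, g ∈ Δ ↔ ∀ v, g • v - v ∈ Y) ∧ KK X N hN ≤ Δ ∧ ∀ u ∈ e.W, u ∈ Δ → e.c u ∈ Y) :
    False := by
  obtain ⟨Y, Δ, hY, Y0, hΔ, l, h⟩ := H
  have hn : Δ.Normal := ⟨fun g hg k => (hΔ _).2 fun v => by
    simpa [smul_sub, mul_smul] using hY k _ ((hΔ g).1 hg (k⁻¹ • v))⟩
  have clo : ∀ g : G, (∀ y : X, ∃ k ∈ Δ, g • y = k • y) → g ∈ Δ := fun g hg =>
    (hΔ g).2 (Ltri e hn (fun n k => (hΔ n).1 k) g (mem_KK.2 hg))
  have k0 := fin8 e hp he hpN hY Y0 hΔ h hn le_rfl y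
  have k1 := (Subgroup.index_dvd_of_le (DD_mono hN hn
    (fun n hn => l (mem_KK.2 fun y => ⟨n, hn, rfl⟩)) y)).trans hz
  obtain ⟨q, hq, M, hM, h1, -, h3, h4, -⟩ := elem2 Δ ⊤ (lt_top_iff_ne_top.2 fun k => by
    rw [Subgroup.index_eq_one.2 (eq_top_iff.2 (k.ge.trans (le_DD Δ hn y)))] at k0
    exact hp.one_lt.ne' (Nat.dvd_one.1 k0))
  by_cases hpq : q = p
  · subst hpq
    obtain ⟨i, hi⟩ := lay hn hM clo h1 hq h3 h4 y
    rw [← fac2 hn hM h1.le y, hi, pow_succ', mul_assoc, Nat.mul_dvd_mul_iff_left hq.pos] at k1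
    rcases i with _ | i
    swap
    · exact hpm (((dvd_pow_self q i.succ_ne_zero).mul_right _).trans k1)
    rw [pow_zero, one_mul] at k1
    have k2 := z1 M hM y k1
    have k3 := (ridx hn clo h1.le h3 (tra hM k2 y)).trans (hi.trans (pow_one q))
    have k4 := PleN hn clo h1.le h3 (tra hM k2 y) hM hq k3 (isP e he)
    have : Finite C := Finite.of_surjective e.c fun v => let ⟨w, _, h⟩ := e.hs v; ⟨w, h⟩
    obtain ⟨v, v0, hv⟩ := fixq hp hC e.W (isP e he) hY Y0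
    have k5 := cyc1 e hY (Y := ⊤) (fun _ _ _ => trivial) le_top Δ (fun u hu _ => h u hu)
      (fun x hx x0 u hu => gen hq k3 h3 (k4 hx) x0 u (k4 hu)) v0 trivial hv
    obtain ⟨u, hu, rfl⟩ := e.hs v
    exact v0 (h u hu ((hΔ u).2 fun z => k5 u hu z trivial))
  · have h5 : ∀ m ∈ M, e.c m ∈ Y := fun m hm => by
      obtain ⟨u, hu, e1⟩ := e.hs (e.c m)
      exact e1 ▸ h u hu (cop Δ (((Nat.coprime_primes hq hp).2 hpq).pow_right a)
        (h4 u (facN e M hM hm hu e1)) (he ▸ e.hW u hu ▸ Δ.one_mem))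
    refine h1.not_ge fun m hm => (hΔ m).2 fun v => ?_
    obtain ⟨w, -, rfl⟩ := e.hs v
    have h3 := Y.sub_mem (hY w _ (h5 _ (hM.conj_mem' m hm w))) (h5 m hm)
    rw [mul_assoc, c_div, smul_inv_smul, e.hc] at h3
    convert h3 using 1
    abel

end Pool.Agent.P.MP_6d14ae_al.W
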