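import Pool.Agent.P.MP_6d14ae_al.W.Aa

/-! An irreducible layer above orbits of coprime length. -/

set_option autoImplicit false

namespace Pool.Agent.P.MP_6d14ae_al.W

open MulAction T V
open S hiding Dat Lay c_one c_div facN ext_b triK next chi chi_one

variable {G X C : Type} [Group G] [Finite G] [MulAction G X] {K N : Subgroup G}
  [IsPretransitive G X] [AddCommGroup C] [DistribMulAction G C]
  (e : Dat G X C) {p a : ℕ} (hp : p.Prime) (he : e.N2 = p ^ a)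

omit [Finite G] in
theorem btop {Y : AddSubgroup C} (hY : ∀ (g : G) v, v ∈ Y → g • v ∈ Y) {x : X} (h : e.b x ∈ Y) :
    Y = ⊤ := eq_top_iff.2 (e.hg ▸ (AddSubgroup.closure_le _).2 (by
  rintro _ ⟨t, rfl⟩
  obtain ⟨w, rfl⟩ := exists_smul_eq G x t
  rw [e.hb]
  exact hY _ _ h))

omit [Finite G] [IsPretransitive G X] in
theorem cN (hN : N.Normal) (g : G) : ∀ n ∈ N, n⁻¹ * g * n * g⁻¹ ∈ N := fun n hn => by
  simpa [mul_assoc] using mul_mem (inv_mem hn) (hN.conj_mem n hn g)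

omit [Finite G] in
theorem trp (hK : K.Normal) (hN : N.Normal)
    (clo : ∀ g : G, (∀ y : X, ∃ k ∈ K, g • y = k • y) → g ∈ K) {Δ : Subgroup G} (nΔ : Δ.Normal)
    {y1 : X} (nor : ∀ g ∈ Δ, ∀ n ∈ N, n ∈ DD K hK y1 → g * n * g⁻¹ ∈ DD K hK y1)
    (g1 : ∀ u ∈ e.W, u ∈ Δ → tv hK N y1 u) :
    ∀ u ∈ e.W, u ∈ Δ → ∀ n ∈ N, n⁻¹ * u * n * u⁻¹ ∈ K := by
  let Z : Subgroup G :=
    { carrier := {g | g ∈ Δ ∧ tv hK N y1 g}
      one_mem' := ⟨one_mem _, fun n _ => by simp⟩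
      mul_mem' := fun {g g'} hg hg' => ⟨mul_mem hg.1 hg'.1, fun n hn => by
        simpa [mul_assoc] using mul_mem (hg.2 n hn) (nor g hg.1 _ (cN hN g' n hn) (hg'.2 n hn))⟩
      inv_mem' := fun {g} hg => ⟨inv_mem hg.1, fun n hn => by
        simpa [mul_assoc] using nor _ (inv_mem hg.1) _ (inv_mem (cN hN g n hn))
          (inv_mem (hg.2 n hn))⟩ }
  have nZ : ∀ g ∈ Δ, ∀ m ∈ Z, g * m * g⁻¹ ∈ Z := fun g hg m hm =>
    ⟨mul_mem (mul_mem hg hm.1) (inv_mem hg), fun n hn => by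
      simpa [mul_assoc] using nor g hg _ (cN hN m _ (hN.conj_mem' n hn g))
        (hm.2 _ (hN.conj_mem' n hn g))⟩
  refine fun u hu h n hn => clo _ fun y => ?_
  obtain ⟨g, rfl⟩ := exists_smul_eq G y1 y
  have k1 := nΔ.conj_mem' u h g
  obtain ⟨u', hu', e2⟩ := e.hs (e.c (g⁻¹ * u * g))
  have k2 := facN e Δ nΔ k1 hu' e2
  have k3 := powmod Z Δ nZ (show u' ∈ Z from ⟨k2, g1 u' hu' k2⟩) (mul_mem (inv_mem k2) k1) e.N1
  rw [e.hP (u'⁻¹ * _) (by rw [c_div, e2, sub_self, smul_zero]), mul_inv_cancel_left, inv_one,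
    mul_one] at k3
  have k4 := cop Z e.hco k3 (by
    have := conj_pow (a := g⁻¹) (b := u) (i := e.N2)
    rw [inv_inv, e.hW u hu, mul_one, inv_mul_cancel] at this
    exact this ▸ Z.one_mem)
  have k5 := tv_conj hK hN g k4.2
  rw [show g * (g⁻¹ * u * g) * g⁻¹ = u by group] at k5
  exact k5 n hn

include hp he

theorem st5 {A : Type} [AddCommGroup A] [DistribMulAction G A] (d : Dat G X A)
    (hZ : ∀ u ∈ e.W, d.c u = 0)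
    (hH : ∀ w ∈ d.W, ∀ u ∈ e.W, ∃ u' ∈ e.W, ∃ w' ∈ d.W, w * u = u' * w')
    {B : AddSubgroup A} (hN : N.Normal) (I : Lay d K B) (hl : K ≤ N)
    (h1 : ∀ a ∈ N, ∀ b ∈ N, a * b * a⁻¹ * b⁻¹ ∈ K)
    (h3 : ∀ k ∈ KK X N hN, ∀ v, k • v - v ∈ B) (hW : d.W ≤ KK X N hN) (hWK : ¬d.W ≤ K)
    (hV : ∀ y : X, p ∣ (DD K I.nor y).relIndex N)
    (IR : ∀ w ∈ d.W, w ∉ K → ∃ y : X, ∀ F : Subgroup G, DD K I.nor y ⊓ N ≤ F → F ≤ N →
      (∀ m ∈ F, w * m * w⁻¹ ∈ F) → F ≤ DD K I.nor y ∨ N ≤ F)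
    (Γ : Subgroup G) (x : X) (l : KK X N hN ≤ Γ)
    (nor : ∀ y : X, ∀ g ∈ Γ, ∀ n ∈ N, n ∈ DD K I.nor y → g * n * g⁻¹ ∈ DD K I.nor y)
    (hx : Γ ≤ DD N hN x) : ∃ y : X, ∀ u ∈ e.W, u ∈ Γ → tv I.nor N y u := by
  have hK := I.nor
  obtain ⟨w1, hw1, e1⟩ := d.hs (d.b x)
  obtain ⟨y1, hy1⟩ := IR w1 hw1 fun h => hWK fun w hw => (I.iff w hw).1 (by
    rw [btop d I.sta (e1 ▸ (I.iff w1 hw1).2 h)]; trivial)
  have wΔ := l (hW hw1)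
  obtain ⟨F, a1, a2⟩ := cnt (DD K hK y1) N (e.W ⊓ Γ) hp ((isP e he).to_le inf_le_left)
    (fun a ha b hb => le_DD K hK y1 (h1 a ha b hb))
    (fun u _ n hn => hN.conj_mem n hn u) fun u hu => nor y1 u hu.2
  suffices a3 : N ≤ F from ⟨y1, fun u hu h n hn => ((a1 n).1 (a3 hn)).2 u ⟨hu, h⟩⟩
  refine (hy1 F (fun m hm => (a1 m).2 ⟨hm.2, fun u hu => by
      have := (DD K hK y1).mul_mem ((DD K hK y1).inv_mem hm.1) (nor y1 u hu.2 m hm.2 hm.1)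
      simpa [mul_assoc] using this⟩)
    (fun m hm => ((a1 m).1 hm).1) fun m hm => (a1 _).2
      ⟨hN.conj_mem m ((a1 m).1 hm).1 w1, fun u hu => ?_⟩).resolve_left fun h => ?_
  swap
  · rw [Subgroup.relIndex_eq_one.2 h] at a2
    exact hp.one_lt.ne' (Nat.dvd_one.1 ((a2.dvd_iff dvd_rfl).1 (hV y1)))
  obtain ⟨u', hu', w', hw', e2⟩ := hH _ (inv_mem hw1) u hu.1
  have e3 : w1⁻¹ * (u * w1) = u' * (w' * w1) := by rw [← mul_assoc, e2, mul_assoc]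
  have e4 : w' * w1 ∈ K := (I.iff _ (mul_mem hw' hw1)).1 (by
    have e5 := congrArg d.c e3
    rw [c_div, d.hc u, d.hc u', hZ u hu.1, hZ u' hu', zero_add, zero_add, e1,
      ← inv_smul_eq_iff] at e5
    obtain ⟨n, hn, e6⟩ := hx hu.2
    rw [← e5, ← d.hb, e6, d.hb]
    exact I.sta _ _ (I.sta _ _ (h3 n (le_KK hN hn) _)))
  have uΔ : u' ∈ Γ := by
    have := mul_mem (mul_mem (inv_mem wΔ) (mul_mem hu.2 wΔ)) (inv_mem (l (le_KK hN (hl e4))))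
    rwa [e3, mul_inv_cancel_right] at this
  have m1 := ((a1 m).1 hm).1
  have e7 := mul_mem (((a1 m).1 hm).2 u' ⟨hu', uΔ⟩) (le_DD K hK y1
    (hK.conj_mem _ (mul_mem (hK.conj_mem' _ e4 m) (inv_mem e4)) u'))
  have e8 : u = w1 * (u' * (w' * w1)) * w1⁻¹ := by rw [← e3]; group
  have := nor y1 w1 wΔ _ (by
    refine mul_mem (cN hN u' m m1) (hl ?_)
    exact hK.conj_mem _ (mul_mem (hK.conj_mem' _ e4 m) (inv_mem e4)) u') e7
  rw [e8]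
  convert this using 1
  group

theorem tone [Group.IsSolvable G] (hpN : e.N1.Coprime p) (hC : ∀ v : C, p ^ a • v = 0)
    {m : ℕ} (hpm : ¬p ∣ m)
    (z1 : ∀ (M : Subgroup G) (hM : M.Normal) (y : X), (DD M hM y).index ∣ m → (DD M hM y).index = 1)
    (hK : K.Normal) (hN : N.Normal)
    (clo : ∀ g : G, (∀ y : X, ∃ k ∈ K, g • y = k • y) → g ∈ K) (y : X)
    (hz : (DD N hN y).index ∣ p * m)
    (H : ∃ (Y : AddSubgroup C) (Δ : Subgroup G), (∀ (g : G) v, v ∈ Y → g • v ∈ Y) ∧ Y ≠ ⊤ ∧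
      (∀ g, g ∈ Δ ↔ ∀ v, g • v - v ∈ Y) ∧ KK X N hN ≤ Δ ∧
      (∀ y : X, ∀ g ∈ Δ, ∀ n ∈ N, n ∈ DD K hK y → g * n * g⁻¹ ∈ DD K hK y) ∧
      ∀ u ∈ Δ, (∀ n ∈ N, n⁻¹ * u * n * u⁻¹ ∈ K) → e.c u ∈ Y)
    (ST : ∀ (Γ : Subgroup G) (x : X), KK X N hN ≤ Γ →
      (∀ y : X, ∀ g ∈ Γ, ∀ n ∈ N, n ∈ DD K hK y → g * n * g⁻¹ ∈ DD K hK y) →
      Γ ≤ DD N hN x → ∃ y : X, ∀ u ∈ e.W, u ∈ Γ → tv hK N y u)
    (hI : ¬p ∣ e.W.index) (hG : ∀ g : G, (g ^ e.N1) ^ p ^ a = 1)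
    {g : G} {x z : X} {k : ℕ} (hg : e.c g = e.b x) (hk : g ^ k • z = z) (k0 : ¬p ∣ k) : False := by
  obtain ⟨Y, Δ, hY, Y0, hΔ, l, nor, S6⟩ := H
  have hn : Δ.Normal := ⟨fun g hg k => (hΔ _).2 fun v => by
    simpa [smul_sub, mul_smul] using hY k _ ((hΔ g).1 hg (k⁻¹ • v))⟩
  have f := fac2 hN hn ((le_KK hN).trans l) y
  by_cases h : p ∣ (DD Δ hn y).index
  · obtain ⟨s, hs⟩ := fixc (D := DD N hN y) hp ((isP e he).to_le (inf_le_left (b := Δ))) inf_le_right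
      fun k => hpm ((Nat.mul_dvd_mul_iff_left hp.pos).1 ((f ▸ mul_dvd_mul k h).trans hz))
    obtain ⟨y1, h1⟩ := ST (Δ ⊓ DD N hN (s • y)) _ (le_inf l (iInf_le _ _))
      (fun y g hg => nor y g hg.1) inf_le_right
    exact two2 e hp he hpN hC hpm z1 hN y hz ⟨Y, Δ, hY, Y0, hΔ, l, fun u hu k => S6 u k
      (trp e hK hN clo hn (nor y1) (fun u hu k => h1 u hu ⟨k, by
        simpa [mul_assoc] using DD_conj hN s (hs u ⟨hu, k⟩)⟩) u hu k)⟩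
  have t := tra hn (z1 Δ hn y ((hp.coprime_iff_not_dvd.2 h).symm.dvd_of_dvd_mul_left
    ((Dvd.intro_left _ f).trans hz)))
  have al : ∀ g, g ∈ Δ := fun g => (hΔ g).2 (ext_b e Y g fun s => by
    obtain ⟨δ, hδ, e1⟩ := t s (g • s)
    rw [← e.hb, e1, e.hb]
    exact (hΔ δ).1 hδ _)
  obtain ⟨s, hs⟩ := fixc (D := e.W) (Δ := ⊤) hp (zp (hG (g ^ k))) le_top
    (by rwa [Subgroup.relIndex_top_right])
  replace hs := hs _ (Subgroup.mem_zpowers _)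
  obtain ⟨y1, h1⟩ := ST (DD N hN (s⁻¹ • z)) _ (iInf_le _ _) (fun y g _ => nor y g (al g)) le_rfl
  have h2 := S6 _ (al _) fun n hn => clo _ fun t => by
    obtain ⟨w, rfl⟩ := exists_smul_eq G y1 t
    have := DD_conj hK w (nor y1 w⁻¹ (al _) _ (cN hN _ n hn) (h1 _ hs (by
      simpa using DD_conj hN s⁻¹ (st_le N hN z (pow_mem (show g ^ k ∈ stabilizer G z from hk) e.N1)))
      n hn))
    rwa [show ∀ u : G, w * (w⁻¹ * u * w⁻¹⁻¹) * w⁻¹ = u from fun u => by group] at this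
  let χ := chi e Y Δ fun k hk => (hΔ k).1 hk
  have h3 : χ (⟨s, al s⟩⁻¹ * (⟨g, al g⟩ ^ k) ^ e.N1 * ⟨s, al s⟩) = 1 := chi_one.2 h2
  rw [map_mul, map_mul, map_inv, inv_mul_cancel_comm, ← pow_mul] at h3
  refine Y0 (btop e hY (hg ▸ chi_one.1 (cop χ.ker (g := ⟨g, al g⟩) (b := p ^ a)
    (((hp.coprime_iff_not_dvd.2 k0).symm.mul_left hpN).pow_right a) h3 ?_)))
  rw [MonoidHom.mem_ker, map_pow]
  show Multiplicative.ofAdd (p ^ a • (e.c g : C ⧸ Y)) = 1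
  rw [← QuotientAddGroup.mk_nsmul, hC]
  rfl

end Pool.Agent.P.MP_6d14ae_al.W
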