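import Pool.Agent.P.MP_6d14ae_al.W.Ab

/-! A lower layer of prime order cannot feed an irreducible top layer of higher rank. -/

set_option autoImplicit false

namespace Pool.Agent.P.MP_6d14ae_al.W

open MulAction T V
open S hiding Dat Lay c_one c_div facN ext_b triK next chi chi_one

variable {G X C : Type} [Group G] [Finite G] [MulAction G X] [AddCommGroup C]
  [DistribMulAction G C] {K N : Subgroup G} (e : Dat G X C) {p a : ℕ} (hp : p.Prime)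
  (he : e.N2 = p ^ a) (hpN : e.N1.Coprime p) (hC : ∀ v : C, p ^ a • v = 0)
  (hN : N.Normal) (hl : K < N) (h2 : ∀ a ∈ N, a ^ p ∈ K)
  (min : ∀ M : Subgroup G, M.Normal → K < M → M ≤ N → N ≤ M) (PN : e.W ≤ N)
  (tr : ∀ s t : X, ∃ n ∈ N, t = n • s) {w : G} (ir : ∀ u ∈ N, u⁻¹ * w * u * w⁻¹ ∈ K → u ∈ K)

omit [Finite G] in
theorem cw {w : G} (h : e.c w = 0) (u : G) : e.c (w * u * w⁻¹) = w • e.c u := by
  have := c_div e w 1
  rw [mul_one, c_one, h, sub_self, smul_zero] at this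
  rw [e.hc, e.hc, this, h, smul_zero, add_zero, zero_add]

include hN hl min PN tr ir

omit [Finite G] in
theorem triv {E : AddSubgroup C} (h : ∀ k ∈ K, e.c k ∈ E) (h' : ∀ n ∈ N, ∀ v, n • v - v ∈ E) :
    E = ⊤ := by
  have al : ∀ k ∈ (⊤ : Subgroup G), ∀ v, k • v - v ∈ E := fun g _ => ext_b e E g fun s => by
    obtain ⟨n, hn, e1⟩ := tr s (g • s)
    rw [← e.hb, e1, e.hb]
    exact h' n hn _
  let χ := (chi e E ⊤ al).comp (Subgroup.topEquiv (G := G)).symm.toMonoidHom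
  have hχ : ∀ g, g ∈ χ.ker ↔ e.c g ∈ E := fun g => chi_one (k := ⟨g, trivial⟩) (h := al)
  obtain ⟨n, hn, n0⟩ := SetLike.exists_of_lt hl
  refine eq_top_iff.2 fun v _ => ?_
  obtain ⟨u, hu, rfl⟩ := e.hs v
  exact (hχ u).1 (min (N ⊓ χ.ker) inferInstance ⟨fun k hk => ⟨hl.le hk, (hχ k).2 (h k hk)⟩,
    fun k => n0 (ir n hn (k ⟨cN hN w n hn, show χ _ = 1 by
      simp only [map_mul, map_inv, inv_mul_cancel_comm, mul_inv_cancel]⟩))⟩ inf_le_left (PN hu)).2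

include hp he hpN hC h2

theorem triv2 (hK : K.Normal) {E : AddSubgroup C} (hE : ∀ (g : G) v, v ∈ E → g • v ∈ E)
    (h : ∀ k ∈ K, e.c k ∈ E) : E = ⊤ := by
  have h1 : ∀ k ∈ K, ∀ v, k • v - v ∈ E := fun m hm v => by
    obtain ⟨w, -, rfl⟩ := e.hs v
    have h3 := E.sub_mem (hE w _ (h _ (hK.conj_mem' m hm w))) (h m hm)
    rw [mul_assoc, c_div, smul_inv_smul, e.hc] at h3
    convert h3 using 1
    abel
  refine triv e hN hl min PN tr ir h ?_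
  by_contra k
  obtain ⟨D, hD, BD, nD, v, v0, hv, mx⟩ := mxl (N := N) e hp he hC hE k
  have := triv e hN hl min PN tr ir (E := fv D (N : Set G)) (fun k hk => le_fv hD _ (BD (h k hk)))
    (mx _ (fv_sta hD fun t ht g => hN.conj_mem' t ht g) (le_fv hD _) (mem_fv.2 fun n hn => by
      obtain ⟨u, hu, -, -, e3⟩ := fp e hpN h2 hn hN
      simpa [smul_sub, mul_smul] using D.add_mem (hD u _ (BD (h1 _ e3 v))) (hv u hu)))
  exact nD fun n hn v => mem_fv.1 (show v ∈ fv D (N : Set G) from this ▸ trivial) n hn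

theorem three2 [IsPretransitive G X] (hK : K.Normal) {K0 N0 : Subgroup G} {B : AddSubgroup C}
    (J : Lay e K0 B) (hN0 : N0.Normal) (g1 : ∀ a ∈ N0, ∀ b ∈ N0, a * b * a⁻¹ * b⁻¹ ∈ K0)
    (g2 : ∀ a ∈ N0, a ^ p ∈ K0) (i0 : ∀ y : X, (DD K0 J.nor y).relIndex N0 = p)
    (nt : ¬∀ n ∈ N0, ∀ v, n • v - v ∈ B) (PK : ∀ u ∈ e.W, u ∈ K → u ∈ KK X N0 hN0)
    (l0 : K0 ≤ K) (wc : e.c w = 0) {r b : ℕ} (hr : r.Prime) (hw : w ^ r ^ b = 1)
    (hrp : ¬p ≡ 1 [MOD r]) {y : X} (hy : w • y = y) : False := by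
  have hK0 := J.nor
  have hL := KK_normal (X := X) N0 hN0
  let T : Subgroup G :=
    { carrier := {l | l ∈ KK X N0 hN0 ∧ ∀ n ∈ N0, Commute (n : G ⧸ K0) l}
      one_mem' := ⟨one_mem _, fun n _ => Commute.one_right _⟩
      mul_mem' := fun ha hb => ⟨mul_mem ha.1 hb.1, fun n hn => (ha.2 n hn).mul_right (hb.2 n hn)⟩
      inv_mem' := fun ha => ⟨inv_mem ha.1, fun n hn => (ha.2 n hn).inv_right⟩ }
  have hT : T.Normal := ⟨fun l hl g => ⟨hL.conj_mem l hl.1 g, fun n hn => by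
    simpa [mul_assoc] using (hl.2 _ (hN0.conj_mem' n hn g)).conj (g : G ⧸ K0)⟩⟩
  have t0 := fun l (hl : l ∈ T) => trl hK0 hN0 J.clo g1 g2 hl.1 fun n hn => (cz K0 _ _).2 (hl.2 n hn)
  have t1 : N0 ≤ T := fun n hn => ⟨mem_KK.2 fun y => ⟨n, hn, rfl⟩, fun m hm =>
    (cz K0 _ _).1 (by simpa using g1 _ (inv_mem hm) n hn)⟩
  have t2 : ∀ u ∈ e.W, u ∈ K → u ∈ T := fun u hu k => ⟨PK u hu k, fun n hn => (cz K0 _ _).1
    (J.clo _ fun y => pr2 (U := e.W ⊓ KK X N0 hN0) hp (i0 y) ((isP e he).to_le inf_le_left)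
      (fun a ha b hb => le_DD K0 hK0 y (g1 a ha b hb)) (fun u _ n hn => hN0.conj_mem n hn u)
      (fun u hu => norL hK0 hN0 g1 y hu.2) u ⟨hu, PK u hu k⟩ n hn)⟩
  obtain ⟨D, hD, BD, nD, v, v0, hv, mx⟩ := mxl (N := N0) e hp he hC J.sta nt
  let Y := fv D (T : Set G)
  have hY : ∀ (g : G) v, v ∈ Y → g • v ∈ Y := fv_sta hD fun t ht g => hT.conj_mem' t ht g
  have DY : D ≤ Y := le_fv hD _
  have vY : v ∈ Y := mem_fv.2 fun n hn => by
    obtain ⟨u, hu, -, -, e3⟩ := fp e hpN (fun a ha => (t0 a ha).1) hn hT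
    simpa [smul_sub, mul_smul] using D.add_mem (hD u _ (BD (J.tri _ e3 v))) (hv u hu)
  have LY := Ltri e hN0 (mx Y hY DY vY)
  have rr : ∀ y : X, ∀ n ∈ N0, n • e.b y - e.b y ∈ D → n ∈ DD K0 hK0 y := fun y n hn h => by
    refine (pr1 (F := N0 ⊓ fx D hD (e.b y)) hp (i0 y) (fun m ⟨⟨k, hk, e2⟩, hm⟩ => ⟨hm, ?_⟩)
      inf_le_left).resolve_right (fun k => nD (all_b (d := e) hD hN0 y fun m hm => (k hm).2)) ⟨hn, h⟩
    show m • e.b y - e.b y ∈ D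
    rw [← e.hb, e2, e.hb]
    exact BD (J.tri k hk _)
  have rad : ∀ l ∈ T, (∀ v, l • v - v ∈ D) → l ∈ K0 := fun l hl h => J.clo l fun y => by
    obtain ⟨n, hn, e1⟩ := mem_KK.1 hl.1 y
    exact e1 ▸ rr y n hn (by rw [← e.hb, ← e1, e.hb]; exact h _)
  have cj : ∀ l ∈ T, ∀ g, e.c (g * l * g⁻¹) - g • e.c l ∈ Y := fun l hl g => by
    have h2 := e.hc (g * l * g⁻¹) g
    rw [inv_mul_cancel_right, e.hc] at h2
    convert Y.neg_mem (LY _ (hL.conj_mem l hl.1 g) (e.c g)) using 1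
    rw [eq_sub_of_add_eq h2.symm]; abel
  have cov : ∀ v, ∃ l ∈ T, v - e.c l ∈ Y := by
    let E : AddSubgroup C :=
      { carrier := {v | ∃ l ∈ T, v - e.c l ∈ Y}
        zero_mem' := ⟨1, one_mem _, by simp [c_one]⟩
        add_mem' := by
          rintro v v' ⟨k, hk, a1⟩ ⟨k', hk', a2⟩
          refine ⟨k * k', mul_mem hk hk', ?_⟩
          convert Y.sub_mem (Y.add_mem a1 a2) (LY k hk.1 (e.c k')) using 1
          rw [e.hc]; abel
        neg_mem' := by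
          rintro v ⟨k, hk, a1⟩
          refine ⟨k⁻¹ * 1, mul_mem (inv_mem hk) (one_mem _), ?_⟩
          convert Y.sub_mem (LY _ (inv_mem hk.1) (e.c k)) a1 using 1
          rw [c_div, c_one, zero_sub, smul_neg]; abel }
    have hE : ∀ (g : G) v, v ∈ E → g • v ∈ E := fun g v ⟨k, hk, a1⟩ => ⟨_, hT.conj_mem k hk g, by
      convert Y.sub_mem (hY g _ a1) (cj k hk g) using 1
      rw [smul_sub]; abel⟩
    have YE : Y ≤ E := fun v h => ⟨1, one_mem _, by simpa [c_one] using h⟩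
    have := triv2 e hp he hpN hC hN hl h2 min PN tr ir hK hE fun k hk => by
      obtain ⟨u, hu, e1⟩ := e.hs (e.c k)
      exact ⟨u, t2 u hu (facN e K hK hk hu e1), by simp [e1]⟩
    exact fun v => (this ▸ trivial : v ∈ E)
  let Q : G → C → C ⧸ D := fun l v => (l • v - v : C)
  have qe : ∀ x y : C, x - y ∈ D → (x : C ⧸ D) = y := fun x y h => QuotientAddGroup.eq_iff_sub_mem.2 h
  have Q1 : ∀ l ∈ T, ∀ x y, x - y ∈ Y → Q l x = Q l y := fun l hl x y h => qe _ _ (by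
    convert mem_fv.1 h l hl using 1
    rw [smul_sub]; abel)
  have Q2 : ∀ l ∈ T, ∀ l' ∈ T, Q l (e.c l') = Q l' (e.c l) := fun l hl l' hl' => qe _ _ (by
    have k1 := (t0 l hl).2 l' hl'.1 fun n hn => (cz K0 _ _).2 (hl'.2 n hn)
    have k2 : e.c (l * l') = e.c (l * l' * l⁻¹ * l'⁻¹ * (l' * l)) := by congr 1; group
    rw [e.hc l l', e.hc _ (l' * l)] at k2
    convert BD (B.add_mem (cK J k1) (J.tri _ k1 (e.c (l' * l)))) using 1
    rw [← add_sub_assoc, ← k2, e.hc]; abel)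
  have k1 : ∀ l ∈ T, e.c l ∈ Y → l ∈ K0 := fun l hl h => rad l hl fun v => by
    obtain ⟨l', hl', a1⟩ := cov v
    exact (QuotientAddGroup.eq_zero_iff _).1 (((Q1 l hl _ _ a1).trans (Q2 l hl l' hl')).trans
      ((QuotientAddGroup.eq_zero_iff _).2 (mem_fv.1 h l' hl')))
  have nw : ∀ n ∈ N0, n ∈ DD K0 hK0 y → w * n * w⁻¹ ∈ DD K0 hK0 y := fun n _ h =>
    hy ▸ DD_conj hK0 w (hy.symm ▸ h)
  obtain ⟨F, a1, a2⟩ := fxr hr hw (DD K0 hK0 y) N0 (fun a ha b hb => le_DD K0 hK0 y (g1 a ha b hb))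
    (fun n hn => hN0.conj_mem n hn w) nw
  have a3 := (pr1 (F := F) hp (i0 y) (fun m hm => (a1 m).2 ⟨hm.2, by
    simpa [mul_assoc] using (DD K0 hK0 y).mul_mem ((DD K0 hK0 y).inv_mem hm.1) (nw m hm.2 hm.1)⟩)
    fun m hm => ((a1 m).1 hm).1).resolve_left fun h =>
      hrp (by rwa [i0, Subgroup.relIndex_eq_one.2 h] at a2)
  obtain ⟨n, hn, n0⟩ := SetLike.not_le_iff_exists.1 (mt Subgroup.relIndex_eq_one.2
    (i0 y ▸ hp.one_lt.ne' : (DD K0 hK0 y).relIndex N0 ≠ 1))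
  obtain ⟨u, hu, e1⟩ := e.hs (n • e.b y - e.b y)
  obtain ⟨k, hk, e2⟩ := ((a1 n).1 (a3 hn)).2
  have a4 : e.c (u⁻¹ * (w * u * w⁻¹)) ∈ B := by
    have e3 : w • e.b y = e.b y := by rw [← e.hb, hy]
    have e4 : w • n • e.b y = n • k • e.b y := by
      rw [← e.hb k, ← e2, e.hb, ← inv_smul_eq_iff.2 e3.symm]
      simp only [mul_smul, smul_inv_smul, inv_smul_eq_iff.2 e3.symm]
    rw [c_div, cw e wc, e1, smul_sub w, e3, e4, sub_sub_sub_cancel_right, ← smul_sub]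
    exact J.sta _ _ (J.sta _ _ (J.tri k hk _))
  obtain ⟨u', hu', -, e3, e4⟩ := fp e hpN h2
    (mul_mem (inv_mem (PN hu)) (hN.conj_mem u (PN hu) w)) hN
  have a5 := ir u (PN hu) (by
    simpa [mul_assoc] using mul_mem (l0 ((J.iff u' hu').1 (e3 ▸ a4))) e4)
  exact n0 (rr y n hn (e1 ▸ BD (cK J (k1 u (t2 u hu a5) (e1 ▸ LY n (le_KK hN0 hn) _)))))

end Pool.Agent.P.MP_6d14ae_al.W
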