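import Pool.Agent.P.MP_6d14ae_al.W.Ac

/-! A top layer that carries the full prime power of the degree. -/

set_option autoImplicit false

namespace Pool.Agent.P.MP_6d14ae_al.W

open MulAction T V
open S hiding Dat Lay c_one c_div facN ext_b triK next chi chi_one

variable {G X C : Type} [Group G] [Finite G] [MulAction G X] [AddCommGroup C]
  [DistribMulAction G C] {K N : Subgroup G} (e : Dat G X C) {p a : ℕ} (hp : p.Prime)
  (he : e.N2 = p ^ a) (hpN : e.N1.Coprime p) (hC : ∀ v : C, p ^ a • v = 0)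

include hp he hpN hC

theorem theta [IsPretransitive G X] {B : AddSubgroup C} (hN : N.Normal) (J : Lay e K B)
    (hl : K < N) (h1 : ∀ a ∈ N, ∀ b ∈ N, a * b * a⁻¹ * b⁻¹ ∈ K) (h2 : ∀ a ∈ N, a ^ p ∈ K)
    (min : ∀ M : Subgroup G, M.Normal → K < M → M ≤ N → N ≤ M)
    (tr : ∀ s t : X, ∃ n ∈ N, t = n • s) {w : G} (wc : e.c w = 0) {r b : ℕ} (hr : r.Prime)
    (hw : w ^ r ^ b = 1) (hrp : ¬p ≡ 1 [MOD r]) (ex : ∃ n ∈ N, n⁻¹ * w * n * w⁻¹ ∉ K)
    {F : Subgroup G} (hF : ∀ n, n ∈ F ↔ n ∈ N ∧ n⁻¹ * w * n * w⁻¹ ∈ K) (iF : K.relIndex F = p)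
    (x : X) : False := by
  have hK := J.nor
  have CM := fun Y => @com G X C _ _ _ _ K N hN e B Y J hl min ⟨w, mem_KK.2 fun y => tr y _, ex⟩
  obtain ⟨D, hD, BD, nD, v, v0, hv, mx⟩ := mxl (N := N) e hp he hC J.sta
    fun h => hl.not_ge fun n hn => by
      obtain ⟨u, hu, -, e2, e3⟩ := fp e hpN h2 hn hN
      simpa using mul_mem ((J.iff u hu).1 (e2 ▸ CM _ J.sta le_rfl h n hn)) e3
  let Y := fv D (N : Set G)
  have hY : ∀ (g : G) v, v ∈ Y → g • v ∈ Y := fv_sta hD fun t ht g => hN.conj_mem' t ht g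
  have DY : D ≤ Y := le_fv hD _
  have NY := mx Y hY DY (mem_fv.2 fun n hn => by
    obtain ⟨u, hu, -, -, e3⟩ := fp e hpN h2 hn hN
    simpa [smul_sub, mul_smul] using D.add_mem (hD u _ (BD (J.tri _ e3 v))) (hv u hu))
  have al := fun g => Ltri e hN NY g (mem_KK.2 fun y => tr y _)
  have cY := CM Y hY (BD.trans DY) NY
  have qe : ∀ x y : C, x - y ∈ D → (x : C ⧸ D) = y := fun x y h => QuotientAddGroup.eq_iff_sub_mem.2 h
  let π : G → C ⧸ D →+ C ⧸ D := fun g =>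
    QuotientAddGroup.map D D (DistribSMul.toAddMonoidHom C g) (hD g)
  have πi : ∀ g, Function.Injective (π g) := fun g =>
    (injective_iff_map_eq_zero _).2 (by
      rintro ⟨v⟩ h
      exact (QuotientAddGroup.eq_zero_iff v).2 (by
        simpa using hD g⁻¹ _ ((QuotientAddGroup.eq_zero_iff (g • v)).1 h)))
  obtain ⟨f, hf⟩ : ∃ f : G → C ⧸ D, ∀ n, f n = (n • e.b x - e.b x : C) := ⟨_, fun _ => rfl⟩
  obtain ⟨c, hc⟩ : ∃ c : G → C ⧸ D, ∀ n, c n = (e.c n : C) := ⟨_, fun _ => rfl⟩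
  have f1 : ∀ n ∈ N, ∀ m, f (n * m) = f n + f m := fun n hn m => by
    rw [hf, hf, hf, ← QuotientAddGroup.mk_add]
    refine qe _ _ ?_
    convert mem_fv.1 (al m (e.b x)) n hn using 1
    rw [smul_sub, mul_smul]; abel
  have c1 : ∀ n ∈ N, ∀ m ∈ N, c (n * m) = c n + c m := fun n hn m hm => by
    rw [hc, hc, hc, ← QuotientAddGroup.mk_add]
    refine qe _ _ ?_
    convert mem_fv.1 (cY m hm) n hn using 1
    rw [e.hc]; abel
  have f2 : ∀ g, ∀ n ∈ N, f (g * n * g⁻¹) = π g (f n) := fun g n hn => by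
    rw [hf, hf]
    refine qe _ (g • _) ?_
    convert hD g _ (mem_fv.1 (al g⁻¹ (e.b x)) n hn) using 1
    simp only [smul_sub, mul_smul, smul_inv_smul]; abel
  have c2 : ∀ n, c (w * n * w⁻¹) = π w (c n) := fun n => by rw [hc, hc, cw e wc]; rfl
  have f0 : ∀ k ∈ K, f k = 0 ∧ c k = 0 := fun k hk => by
    rw [hf, hc]
    exact ⟨(QuotientAddGroup.eq_zero_iff _).2 (BD (J.tri k hk _)),
      (QuotientAddGroup.eq_zero_iff _).2 (BD (cK J hk))⟩
  have f3 : ∀ n ∈ N, ∀ m ∈ N, f (n⁻¹ * m) = f m - f n ∧ c (n⁻¹ * m) = c m - c n :=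
    fun n hn m hm => by
      have a1 := f1 n hn (n⁻¹ * m)
      have a2 := c1 n hn _ (mul_mem (inv_mem hn) hm)
      rw [mul_inv_cancel_left] at a1 a2
      exact ⟨by rw [a1]; abel, by rw [a2]; abel⟩
  have inj : ∀ n ∈ N, f n = 0 → n ∈ K := fun n hn h => by
    have k : ∀ m, m ∈ fx D hD (e.b x) ↔ f m = 0 := fun m => by
      rw [hf]; exact (QuotientAddGroup.eq_zero_iff _).symm
    by_contra n0
    exact nD (all_b (d := e) hD hN x fun m hm => (min (N ⊓ fx D hD (e.b x))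
      ⟨fun m hm g => ⟨hN.conj_mem m hm.1 g, (k _).2 (by rw [f2 g m hm.1, (k m).1 hm.2, map_zero])⟩⟩
      ⟨fun m hm => ⟨hl.le hm, (k m).2 (f0 m hm).1⟩, fun l => n0 (l ⟨hn, (k n).2 h⟩)⟩
      inf_le_left hm).2)
  have cf : ∀ n ∈ N, ∃ m ∈ N, c n = f m := by
    let Z : AddSubgroup C :=
      { carrier := {v | ∃ m ∈ N, (v : C ⧸ D) = f m}
        zero_mem' := ⟨1, one_mem _, (f0 1 K.one_mem).1.symm⟩
        add_mem' := by
          rintro v v' ⟨k, hk, a1⟩ ⟨k', hk', a2⟩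
          exact ⟨k * k', mul_mem hk hk', by rw [f1 k hk, ← a1, ← a2]; rfl⟩
        neg_mem' := by
          rintro v ⟨k, hk, a1⟩
          exact ⟨k⁻¹ * 1, mul_mem (inv_mem hk) (one_mem _), by
            rw [(f3 k hk 1 N.one_mem).1, (f0 1 K.one_mem).1, ← a1, zero_sub]; rfl⟩ }
    simp only [hc]
    refine CM Z (fun g v ⟨k, hk, a1⟩ => ⟨_, hN.conj_mem k hk g, by rw [f2 g k hk, ← a1]; rfl⟩)
      (fun v hv => ⟨1, one_mem _, ((QuotientAddGroup.eq_zero_iff v).2 (BD hv)).trans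
        (f0 1 K.one_mem).1.symm⟩) fun n hn => ext_b e Z n fun y => ⟨n, hn, ?_⟩
    obtain ⟨g, rfl⟩ := exists_smul_eq G x y
    rw [hf, e.hb]
    refine qe _ _ ?_
    convert mem_fv.1 (al g (e.b x)) n hn using 1
    rw [smul_sub]; abel
  let E : ℤ → Subgroup G := fun t =>
    { carrier := {n | n ∈ N ∧ c n = t • f n}
      one_mem' := ⟨one_mem _, by rw [(f0 1 K.one_mem).1, (f0 1 K.one_mem).2, smul_zero]⟩
      mul_mem' := fun {n m} hn hm => ⟨mul_mem hn.1 hm.1, by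
        rw [c1 n hn.1 m hm.1, f1 n hn.1, hn.2, hm.2, smul_add]⟩
      inv_mem' := fun {n} hn => ⟨inv_mem hn.1, by
        have := f3 n hn.1 1 N.one_mem
        rw [mul_one, (f0 1 K.one_mem).1, (f0 1 K.one_mem).2] at this
        rw [this.1, this.2, hn.2, smul_sub, smul_zero]⟩ }
  have KE : ∀ t, K ≤ E t := fun t k hk => ⟨hl.le hk, by rw [(f0 k hk).1, (f0 k hk).2, smul_zero]⟩
  have cE := fun t => fxr hr hw K (E t) (fun a ha b hb => h1 a ha.1 b hb.1)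
    (fun n hn => ⟨hN.conj_mem n hn.1 w, by rw [c2, f2 w n hn.1, hn.2, map_zsmul]⟩)
    fun n _ h => hK.conj_mem n h w
  obtain ⟨n, hn, n0⟩ := SetLike.not_le_iff_exists.1 (mt Subgroup.relIndex_eq_one.2
    (iF ▸ hp.one_lt.ne' : K.relIndex F ≠ 1))
  have nN := ((hF n).1 hn).1
  have ge := gen hp iF (fun a ha b hb => h1 a ((hF a).1 ha).1 b ((hF b).1 hb).1) hn n0
  obtain ⟨m, hm, a1⟩ := cf n nN
  obtain ⟨t, ht⟩ := ge m ((hF m).2 ⟨hm, inj _ (cN hN w m hm) (by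
    have := (f0 _ ((hF n).1 hn).2).2
    rw [mul_assoc, mul_assoc, ← mul_assoc w] at this ⊢
    rw [(f3 n nN _ (hN.conj_mem n nN w)).2, c2] at this
    rw [(f3 m hm _ (hN.conj_mem m hm w)).1, f2 w m hm, ← a1, this])⟩)
  have a2 : n ∈ E t := ⟨nN, by
    have a3 : ∀ k : ℕ, f (n ^ k) = (k : ℤ) • f n := fun k => by
      induction k with
      | zero => simpa using (f0 1 K.one_mem).1
      | succ k ih => rw [pow_succ, f1 _ (pow_mem nN k), ih]; push_cast; rw [add_smul, one_smul]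
    have := (f0 _ ht).1
    rw [(f3 _ (pow_mem nN t) m hm).1, sub_eq_zero] at this
    rw [a1, this, a3]⟩
  have a3 : F ≤ E t := fun m hm => by
    obtain ⟨k, hk⟩ := ge m hm
    simpa using mul_mem (pow_mem a2 k) (KE t hk)
  obtain ⟨g, -, hg⟩ := e.hs (e.b x)
  have a4 : ∀ n ∈ N, c (g * n * g⁻¹) = π g (c n) - f (g * n * g⁻¹) := fun n hn => by
    have h2 := e.hc (g * n * g⁻¹) g
    rw [inv_mul_cancel_right, e.hc, hg] at h2
    rw [hc, hc, hf, eq_sub_of_add_eq h2.symm]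
    exact (congrArg _ (by abel)).trans (QuotientAddGroup.mk_sub D (g • e.c n) _)
  have a5 : (E t).map (MulAut.conj g).toMonoidHom = E (t - 1) := by
    ext n
    refine ⟨?_, fun h => ⟨g⁻¹ * n * g, ⟨hN.conj_mem' n h.1 g, πi g ?_⟩, by simp [mul_assoc]⟩⟩
    · rintro ⟨n, h, rfl⟩
      exact ⟨hN.conj_mem n h.1 g, show c (g * n * g⁻¹) = _ • f (g * n * g⁻¹) by
        rw [a4 n h.1, h.2, map_zsmul, ← f2 g n h.1, sub_smul, one_smul]⟩
    · have b1 := a4 _ (hN.conj_mem' n h.1 g)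
      have b2 := f2 g _ (hN.conj_mem' n h.1 g)
      rw [show g * (g⁻¹ * n * g) * g⁻¹ = n by group] at b1 b2
      rw [map_zsmul, ← b2, eq_add_of_sub_eq b1.symm, h.2, sub_smul, one_smul, sub_add_cancel]
  have a6 : K.map (MulAut.conj g).toMonoidHom = K := by
    ext k
    exact ⟨by rintro ⟨k, h, rfl⟩; exact hK.conj_mem k h g,
      fun h => ⟨g⁻¹ * k * g, hK.conj_mem' k h g, by simp [mul_assoc]⟩⟩
  have a7 := Subgroup.relIndex_map_map_of_injective (f := (MulAut.conj g).toMonoidHom) K (E t)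
    (MulAut.conj g).injective
  rw [a5, a6] at a7
  obtain ⟨F1, b1, b2⟩ := cE t
  obtain ⟨F2, b3, b4⟩ := cE (t - 1)
  rw [show F1 = F from Subgroup.ext fun n => (b1 n).trans ⟨fun h => (hF n).2 ⟨h.1.1, h.2⟩,
    fun h => ⟨a3 h, ((hF n).1 h).2⟩⟩, iF] at b2
  rw [Subgroup.relIndex_eq_one.2 fun n (hn : n ∈ F2) => ?_, a7] at b4
  · exact hrp (b2.symm.trans b4)
  · have h := (b3 n).1 hn
    have b5 := (a3 ((hF n).2 ⟨h.1.1, h.2⟩)).2
    rw [h.1.2, sub_smul, one_smul, sub_eq_self] at b5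
    exact inj n h.1.1 b5

end Pool.Agent.P.MP_6d14ae_al.W
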